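import Pool.Agent.Q35.ZC.Stm4
import Pool.Agent.Y720.MZ.Sep

/-!
# A tangent line of the branch curve in the direction of the first coordinate
(job TGT of the project ZC of helper35; author: helper247)
-/

set_option autoImplicit false

open MvPolynomial Pool.Agent.Q35.TT
open Pool.Agent.Y720.MZ (dc qpol qpol_coeff dc_ne_zero dc_smul map_dc)
open Pool.Agent.Q35.ZC (S_TGT)

namespace Pool.Agent.Q247.ZC

/-! ### A binary quartic form of discriminant zero has a double zero -/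

lemma quartic {L : Type} [Field L] [IsAlgClosed L] (a : Fin 5 → L)
    (h : dc (a 0) (a 1) (a 2) (a 3) (a 4) = 0) :
    (∃ t, a 0 + a 1 * t + a 2 * t ^ 2 + a 3 * t ^ 3 + a 4 * t ^ 4 = 0 ∧
      a 1 + a 2 * (2 * t) + a 3 * (3 * t ^ 2) + a 4 * (4 * t ^ 3) = 0) ∨
      (a 3 = 0 ∧ a 4 = 0) := by
  by_cases hd : 3 ≤ (qpol (a 0) (a 1) (a 2) (a 3) (a 4)).natDegree
  · left
    have hs : ¬ (qpol (a 0) (a 1) (a 2) (a 3) (a 4)).Separable := fun hs => dc_ne_zero hs hd h
    rw [Polynomial.Separable, Polynomial.isCoprime_iff_aeval_ne_zero_of_isAlgClosed L L] at hs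
    push Not at hs
    obtain ⟨t, h1, h2⟩ := hs
    refine ⟨t, ?_, ?_⟩
    · rw [← h1]
      simp [qpol]
    · rw [← h2]
      simp [qpol]
      ring
  · right
    obtain ⟨-, -, -, h3, h4⟩ := qpol_coeff (a 0) (a 1) (a 2) (a 3) (a 4)
    constructor
    · rw [← h3]
      exact Polynomial.coeff_eq_zero_of_natDegree_lt (by omega)
    · rw [← h4]
      exact Polynomial.coeff_eq_zero_of_natDegree_lt (by omega)

/-! ### The discriminant as a binary form of degree 24 -/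

/-- the coefficients of the quartic form -/
def Aa {R : Type} [CommRing R] (c : Fin 5 → Fin 5 → R) (y₀ y₁ : R) (i : Fin 5) : R :=
  ∑ j : Fin 5, c i j * (y₀ ^ (4 - (j : ℕ)) * y₁ ^ (j : ℕ))

/-- the discriminant -/
def Dd {R : Type} [CommRing R] (c : Fin 5 → Fin 5 → R) (y₀ y₁ : R) : R :=
  dc (Aa c y₀ y₁ 0) (Aa c y₀ y₁ 1) (Aa c y₀ y₁ 2) (Aa c y₀ y₁ 3) (Aa c y₀ y₁ 4)

lemma Aa_map {R S : Type} [CommRing R] [CommRing S] (φ : R →+* S) (c : Fin 5 → Fin 5 → R)
    (y₀ y₁ : R) (i : Fin 5) : Aa (fun i j => φ (c i j)) (φ y₀) (φ y₁) i = φ (Aa c y₀ y₁ i) := by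
  simp only [Aa, map_sum, map_mul, map_pow]

lemma Dd_map {R S : Type} [CommRing R] [CommRing S] (φ : R →+* S) (c : Fin 5 → Fin 5 → R)
    (y₀ y₁ : R) : Dd (fun i j => φ (c i j)) (φ y₀) (φ y₁) = φ (Dd c y₀ y₁) := by
  simp only [Dd, Aa_map, map_dc]

lemma Aa_smul {R : Type} [CommRing R] (c : Fin 5 → Fin 5 → R) (l y₀ y₁ : R) (i : Fin 5) :
    Aa c (l * y₀) (l * y₁) i = l ^ 4 * Aa c y₀ y₁ i := by
  simp only [Aa, Finset.mul_sum]
  refine Finset.sum_congr rfl fun j _ => ?_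
  have h : l ^ 4 = l ^ (4 - (j : ℕ)) * l ^ (j : ℕ) := by
    rw [← pow_add]
    congr 1
    have := j.2
    omega
  rw [h, mul_pow, mul_pow]
  ring

lemma Dd_smul {R : Type} [CommRing R] (c : Fin 5 → Fin 5 → R) (l y₀ y₁ : R) :
    Dd c (l * y₀) (l * y₁) = l ^ 24 * Dd c y₀ y₁ := by
  simp only [Dd, Aa_smul, dc_smul]
  ring

lemma exists_zero {L : Type} [Field L] [IsAlgClosed L] (c : Fin 5 → Fin 5 → L) :
    (∃ s, Dd c 1 s = 0) ∨ Dd c 0 1 = 0 := by
  by_contra hcon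
  push Not at hcon
  obtain ⟨h1, h2⟩ := hcon
  have : Infinite L := IsAlgClosed.instInfinite
  set P : Polynomial L := Dd (fun i j => Polynomial.C (c i j)) 1 Polynomial.X with hP
  set Q : Polynomial L := Dd (fun i j => Polynomial.C (c i j)) Polynomial.X 1 with hQ
  have eP : ∀ s, P.eval s = Dd c 1 s := by
    intro s
    have h := Dd_map (Polynomial.evalRingHom s) (fun i j => Polynomial.C (c i j)) 1 Polynomial.X
    simp only [Polynomial.coe_evalRingHom, Polynomial.eval_C, Polynomial.eval_one,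
      Polynomial.eval_X] at h
    exact h.symm
  have eQ : ∀ s, Q.eval s = Dd c s 1 := by
    intro s
    have h := Dd_map (Polynomial.evalRingHom s) (fun i j => Polynomial.C (c i j)) Polynomial.X 1
    simp only [Polynomial.coe_evalRingHom, Polynomial.eval_C, Polynomial.eval_one,
      Polynomial.eval_X] at h
    exact h.symm
  have hdeg : P.degree = 0 := by
    by_contra hne
    obtain ⟨s, hs⟩ := IsAlgClosed.exists_root P hne
    exact h1 s (by rw [← eP]; exact hs)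
  obtain ⟨d, hd⟩ : ∃ d, P = Polynomial.C d := ⟨_, Polynomial.eq_C_of_degree_eq_zero hdeg⟩
  have hQX : Q * Polynomial.X = (Polynomial.C d * Polynomial.X ^ 24) * Polynomial.X := by
    refine Polynomial.funext fun s => ?_
    simp only [Polynomial.eval_mul, Polynomial.eval_C, Polynomial.eval_X, Polynomial.eval_pow, eQ]
    rcases eq_or_ne s 0 with rfl | hs
    · simp
    · have h3 : Dd c s 1 = s ^ 24 * Dd c 1 s⁻¹ := by
        rw [← Dd_smul, mul_one, mul_inv_cancel₀ hs]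
      rw [h3, ← eP, hd, Polynomial.eval_C]
      ring
  have hQ' : Q = Polynomial.C d * Polynomial.X ^ 24 := mul_right_cancel₀ Polynomial.X_ne_zero hQX
  apply h2
  rw [← eQ, hQ']
  simp

/-- the double zero, in one of the four charts -/
lemma dbl {L : Type} [Field L] [IsAlgClosed L] (c : Fin 5 → Fin 5 → L) :
    ∃ y₀ y₁ : L, (y₀ = 1 ∨ (y₀ = 0 ∧ y₁ = 1)) ∧
      ((∃ t, Aa c y₀ y₁ 0 + Aa c y₀ y₁ 1 * t + Aa c y₀ y₁ 2 * t ^ 2 + Aa c y₀ y₁ 3 * t ^ 3 +
          Aa c y₀ y₁ 4 * t ^ 4 = 0 ∧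
        Aa c y₀ y₁ 1 + Aa c y₀ y₁ 2 * (2 * t) + Aa c y₀ y₁ 3 * (3 * t ^ 2) +
          Aa c y₀ y₁ 4 * (4 * t ^ 3) = 0) ∨ (Aa c y₀ y₁ 3 = 0 ∧ Aa c y₀ y₁ 4 = 0)) := by
  rcases exists_zero c with ⟨s, hs⟩ | h
  · exact ⟨1, s, Or.inl rfl, quartic _ hs⟩
  · exact ⟨0, 1, Or.inr ⟨rfl, rfl⟩, quartic _ h⟩

/-! ### Coefficients of a form of bidegree (4, 4) -/

/-- the exponent vector -/
noncomputable def me (i j : ℕ) : Fin 2 × Fin 2 →₀ ℕ :=
  Finsupp.single (0, 0) (4 - i) + Finsupp.single (0, 1) i + Finsupp.single (1, 0) (4 - j) +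
    Finsupp.single (1, 1) j

lemma me00 (i j : ℕ) : me i j (0, 0) = 4 - i := by simp [me, Finsupp.single_apply]

lemma me01 (i j : ℕ) : me i j (0, 1) = i := by simp [me, Finsupp.single_apply]

lemma me10 (i j : ℕ) : me i j (1, 0) = 4 - j := by simp [me, Finsupp.single_apply]

lemma me11 (i j : ℕ) : me i j (1, 1) = j := by simp [me, Finsupp.single_apply]

lemma me_eq (m : Fin 2 × Fin 2 →₀ ℕ) (hm : ∀ j, m (j, 0) + m (j, 1) = 4) :
    me (m (0, 1)) (m (1, 1)) = m := by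
  have h0 := hm 0
  have h1 := hm 1
  ext ⟨a, b⟩
  fin_cases a <;> fin_cases b
  · show me _ _ (0, 0) = m (0, 0)
    rw [me00]
    omega
  · show me _ _ (0, 1) = m (0, 1)
    rw [me01]
  · show me _ _ (1, 0) = m (1, 0)
    rw [me10]
    omega
  · show me _ _ (1, 1) = m (1, 1)
    rw [me11]

lemma form {L : Type} [Field L] (G : MvPolynomial (Fin 2 × Fin 2) L) (hG : Hom4 G)
    (x : Fin 2 × Fin 2 → L) :
    eval x G = ∑ i : Fin 5, ∑ j : Fin 5, G.coeff (me i j) *
      ((x (0, 0) ^ (4 - (i : ℕ)) * x (0, 1) ^ (i : ℕ)) *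
        (x (1, 0) ^ (4 - (j : ℕ)) * x (1, 1) ^ (j : ℕ))) := by
  classical
  rw [eval_eq']
  have hinj : Set.InjOn (fun p : Fin 5 × Fin 5 => me p.1 p.2)
      (Finset.univ : Finset (Fin 5 × Fin 5)) := by
    intro p _ q _ h
    have h0 := congrArg (fun m : Fin 2 × Fin 2 →₀ ℕ => m (0, 1)) h
    have h1 := congrArg (fun m : Fin 2 × Fin 2 →₀ ℕ => m (1, 1)) h
    simp only [me01, me11] at h0 h1
    exact Prod.ext (Fin.ext h0) (Fin.ext h1)
  have h1 : ∑ m ∈ G.support, coeff m G * ∏ i, x i ^ m i =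
      ∑ m ∈ (Finset.univ : Finset (Fin 5 × Fin 5)).image (fun p => me p.1 p.2),
        coeff m G * ∏ i, x i ^ m i := by
    refine Finset.sum_subset ?_ ?_
    · intro m hm
      have h := hG m hm
      have h0 := h 0
      have h1 := h 1
      refine Finset.mem_image.2 ⟨(⟨m (0, 1), by omega⟩, ⟨m (1, 1), by omega⟩),
        Finset.mem_univ _, ?_⟩
      exact me_eq m h
    · intro m _ hm
      rw [notMem_support_iff.1 hm, zero_mul]
  rw [h1, Finset.sum_image hinj, Fintype.sum_prod_type]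
  refine Finset.sum_congr rfl fun i _ => Finset.sum_congr rfl fun j _ => ?_
  rw [Fintype.prod_prod_type, Fin.prod_univ_two, Fin.prod_univ_two, Fin.prod_univ_two, me00, me01,
    me10, me11]

/-! ### The charts -/

lemma aeval_chart {K L : Type} [Field K] [Field L] [Algebra K L]
    (F : MvPolynomial (Fin 2 × Fin 2) K) (ε : Fin 2 → Fin 2) (z : Fin 2 → L) :
    aeval z (ch F ε) = eval (pt ε z) (map (algebraMap K L) F) := by
  rw [eval_map, ← aeval_def, ch]
  have h : (aeval z).comp (aeval (fun p : Fin 2 × Fin 2 => if p.2 = ε p.1 then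
      (1 : MvPolynomial (Fin 2) K) else X p.1)) = aeval (pt ε z : Fin 2 × Fin 2 → L) := by
    refine algHom_ext fun p => ?_
    rw [AlgHom.comp_apply, aeval_X, aeval_X, pt]
    split_ifs <;> simp
  exact DFunLike.congr_fun h F

lemma form' {L : Type} [Field L] [Infinite L] (G : MvPolynomial (Fin 2 × Fin 2) L) (hG : Hom4 G) :
    G = ∑ i : Fin 5, ∑ j : Fin 5, C (G.coeff (me i j)) *
      ((X (0, 0) ^ (4 - (i : ℕ)) * X (0, 1) ^ (i : ℕ)) *
        (X (1, 0) ^ (4 - (j : ℕ)) * X (1, 1) ^ (j : ℕ))) := by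
  refine MvPolynomial.funext fun x => ?_
  rw [form G hG]
  simp only [map_sum, map_mul, map_pow, eval_C, eval_X]

lemma d1 {L : Type} [Field L] (a : L) (m i n j : ℕ) (x : Fin 2 × Fin 2 → L) :
    eval x (pderiv (0, 1) (C a * ((X (0, 0) ^ m * X (0, 1) ^ i) *
      (X (1, 0) ^ n * X (1, 1) ^ j) : MvPolynomial (Fin 2 × Fin 2) L))) =
    a * ((x (0, 0) ^ m * (i * x (0, 1) ^ (i - 1))) * (x (1, 0) ^ n * x (1, 1) ^ j)) := by
  have h1 : pderiv (0, 1) (X (0, 0) : MvPolynomial (Fin 2 × Fin 2) L) = 0 :=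
    pderiv_X_of_ne (by decide)
  have h2 : pderiv (0, 1) (X (1, 0) : MvPolynomial (Fin 2 × Fin 2) L) = 0 :=
    pderiv_X_of_ne (by decide)
  have h3 : pderiv (0, 1) (X (1, 1) : MvPolynomial (Fin 2 × Fin 2) L) = 0 :=
    pderiv_X_of_ne (by decide)
  simp only [pderiv_mul, pderiv_pow, pderiv_C, h1, h2, h3, pderiv_X_self, map_mul, map_add,
    map_pow, eval_C, eval_X, map_zero, map_one, map_natCast]
  ring

lemma d0 {L : Type} [Field L] (a : L) (m i n j : ℕ) (x : Fin 2 × Fin 2 → L) :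
    eval x (pderiv (0, 0) (C a * ((X (0, 0) ^ m * X (0, 1) ^ i) *
      (X (1, 0) ^ n * X (1, 1) ^ j) : MvPolynomial (Fin 2 × Fin 2) L))) =
    a * (((m * x (0, 0) ^ (m - 1)) * x (0, 1) ^ i) * (x (1, 0) ^ n * x (1, 1) ^ j)) := by
  have h1 : pderiv (0, 0) (X (0, 1) : MvPolynomial (Fin 2 × Fin 2) L) = 0 :=
    pderiv_X_of_ne (by decide)
  have h2 : pderiv (0, 0) (X (1, 0) : MvPolynomial (Fin 2 × Fin 2) L) = 0 :=
    pderiv_X_of_ne (by decide)
  have h3 : pderiv (0, 0) (X (1, 1) : MvPolynomial (Fin 2 × Fin 2) L) = 0 :=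
    pderiv_X_of_ne (by decide)
  simp only [pderiv_mul, pderiv_pow, pderiv_C, h1, h2, h3, pderiv_X_self, map_mul, map_add,
    map_pow, eval_C, eval_X, map_zero, map_one, map_natCast]
  ring

section

variable {L : Type} [Field L] [Infinite L] (G : MvPolynomial (Fin 2 × Fin 2) L) (hG : Hom4 G)
include hG

lemma eval_G (x : Fin 2 × Fin 2 → L) :
    eval x G = ∑ i : Fin 5, (x (0, 0) ^ (4 - (i : ℕ)) * x (0, 1) ^ (i : ℕ)) *
      Aa (fun i j => G.coeff (me i j)) (x (1, 0)) (x (1, 1)) i := by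
  rw [form G hG]
  refine Finset.sum_congr rfl fun i _ => ?_
  rw [Aa, Finset.mul_sum]
  refine Finset.sum_congr rfl fun j _ => ?_
  ring

lemma eval_G1 (x : Fin 2 × Fin 2 → L) :
    eval x (pderiv (0, 1) G) = ∑ i : Fin 5, (x (0, 0) ^ (4 - (i : ℕ)) *
      (((i : ℕ) : L) * x (0, 1) ^ ((i : ℕ) - 1))) *
      Aa (fun i j => G.coeff (me i j)) (x (1, 0)) (x (1, 1)) i := by
  conv_lhs => rw [form' G hG]
  simp only [map_sum, d1]
  refine Finset.sum_congr rfl fun i _ => ?_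
  rw [Aa, Finset.mul_sum]
  refine Finset.sum_congr rfl fun j _ => ?_
  ring

lemma eval_G0 (x : Fin 2 × Fin 2 → L) :
    eval x (pderiv (0, 0) G) = ∑ i : Fin 5, ((((4 - (i : ℕ) : ℕ) : L) *
      x (0, 0) ^ (4 - (i : ℕ) - 1)) * x (0, 1) ^ (i : ℕ)) *
      Aa (fun i j => G.coeff (me i j)) (x (1, 0)) (x (1, 1)) i := by
  conv_lhs => rw [form' G hG]
  simp only [map_sum, d0]
  refine Finset.sum_congr rfl fun i _ => ?_
  rw [Aa, Finset.mul_sum]
  refine Finset.sum_congr rfl fun j _ => ?_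
  ring

/-- a point at which the form and its derivatives in the first pair of variables vanish -/
lemma tangent [IsAlgClosed L] : ∃ (ε : Fin 2 → Fin 2) (z : Fin 2 → L),
    eval (pt ε z) G = 0 ∧ eval (pt ε z) (pderiv (0, 1 - ε 0) G) = 0 := by
  obtain ⟨y₀, y₁, hy, h⟩ := dbl (fun i j => G.coeff (me i j))
  obtain ⟨e, s, he0, he1⟩ : ∃ (e : Fin 2) (s : L), (if (0 : Fin 2) = e then 1 else s) = y₀ ∧
      (if (1 : Fin 2) = e then 1 else s) = y₁ := by
    rcases hy with rfl | ⟨rfl, rfl⟩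
    · exact ⟨0, y₁, by simp, by simp⟩
    · exact ⟨1, 0, by simp, by simp⟩
  rcases h with ⟨t, h1, h2⟩ | ⟨h3, h4⟩
  · refine ⟨![0, e], ![t, s], ?_, ?_⟩
    · rw [eval_G G hG]
      have e0 : pt ![0, e] ![t, s] ((1, 0) : Fin 2 × Fin 2) = y₀ := he0
      have e1 : pt ![0, e] ![t, s] ((1, 1) : Fin 2 × Fin 2) = y₁ := he1
      have e2 : pt ![0, e] ![t, s] ((0, 0) : Fin 2 × Fin 2) = (1 : L) := rfl
      have e3 : pt ![0, e] ![t, s] ((0, 1) : Fin 2 × Fin 2) = t := rfl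
      rw [e0, e1, e2, e3, ← h1, Fin.sum_univ_five]
      simp
      ring
    · show eval _ (pderiv (0, 1 - 0) G) = 0
      rw [sub_zero, eval_G1 G hG]
      have e0 : pt ![0, e] ![t, s] ((1, 0) : Fin 2 × Fin 2) = y₀ := he0
      have e1 : pt ![0, e] ![t, s] ((1, 1) : Fin 2 × Fin 2) = y₁ := he1
      have e2 : pt ![0, e] ![t, s] ((0, 0) : Fin 2 × Fin 2) = (1 : L) := rfl
      have e3 : pt ![0, e] ![t, s] ((0, 1) : Fin 2 × Fin 2) = t := rfl
      rw [e0, e1, e2, e3, ← h2, Fin.sum_univ_five]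
      simp
      ring
  · refine ⟨![1, e], ![0, s], ?_, ?_⟩
    · rw [eval_G G hG]
      have e0 : pt ![1, e] ![0, s] ((1, 0) : Fin 2 × Fin 2) = y₀ := he0
      have e1 : pt ![1, e] ![0, s] ((1, 1) : Fin 2 × Fin 2) = y₁ := he1
      have e2 : pt ![1, e] ![0, s] ((0, 0) : Fin 2 × Fin 2) = (0 : L) := rfl
      have e3 : pt ![1, e] ![0, s] ((0, 1) : Fin 2 × Fin 2) = (1 : L) := rfl
      rw [e0, e1, e2, e3, Fin.sum_univ_five]
      simp [h4]
    · show eval _ (pderiv (0, 1 - 1) G) = 0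
      rw [sub_self, eval_G0 G hG]
      have e0 : pt ![1, e] ![0, s] ((1, 0) : Fin 2 × Fin 2) = y₀ := he0
      have e1 : pt ![1, e] ![0, s] ((1, 1) : Fin 2 × Fin 2) = y₁ := he1
      have e2 : pt ![1, e] ![0, s] ((0, 0) : Fin 2 × Fin 2) = (0 : L) := rfl
      have e3 : pt ![1, e] ![0, s] ((0, 1) : Fin 2 × Fin 2) = (1 : L) := rfl
      rw [e0, e1, e2, e3, Fin.sum_univ_five]
      simp [h3]

end

lemma two_cases (b c : Fin 2) : b = c ∨ b = 1 - c := by
  revert b c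
  decide

lemma pderiv_chart {K : Type} [Field K] (F : MvPolynomial (Fin 2 × Fin 2) K)
    (ε : Fin 2 → Fin 2) (k : Fin 2) : pderiv k (ch F ε) = ch (pderiv (k, 1 - ε k) F) ε := by
  unfold ch
  induction F using MvPolynomial.induction_on with
  | C a => simp
  | add p q hp hq => rw [map_add, map_add, map_add, map_add, hp, hq]
  | mul_X p q hp =>
    rw [map_mul, pderiv_mul, pderiv_mul, map_add, map_mul, map_mul, hp, aeval_X]
    congr 2
    by_cases h : q.2 = ε q.1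
    · rw [if_pos h, pderiv_one, pderiv_X_of_ne, map_zero]
      intro h1
      rw [h1] at h
      revert h
      show ¬ (1 - ε k = ε k)
      generalize ε k = c
      revert c
      decide
    · rw [if_neg h]
      have h2 : q.2 = 1 - ε q.1 := (two_cases q.2 (ε q.1)).resolve_left h
      by_cases h3 : q.1 = k
      · have h4 : q = (k, 1 - ε k) := by
          rw [← h3]
          exact Prod.ext rfl h2
        rw [h3, pderiv_X_self, h4, pderiv_X_self, map_one]
      · rw [pderiv_X_of_ne h3, pderiv_X_of_ne, map_zero]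
        intro h1
        rw [h1] at h3
        exact h3 rfl

/-- **Job TGT.** -/
theorem tgt : S_TGT := by
  intro K _ _ F hF _
  have hG : Hom4 (map (algebraMap K (AlgebraicClosure K)) F) :=
    fun m hm => hF m (support_map_subset _ F hm)
  have : Infinite (AlgebraicClosure K) := IsAlgClosed.instInfinite
  obtain ⟨ε, z, h1, h2⟩ := tangent _ hG
  refine ⟨ε, z, ?_, ?_⟩
  · rw [aeval_chart]
    exact h1
  · rw [pderiv_chart, aeval_chart, ← pderiv_map]
    exact h2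

end Pool.Agent.Q247.ZC
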